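import Pool.Agent.W866.TC.Defs
import Pool.Agent.H812R3.CantorChar

/-!
TC-ZFC (helper74), first part: arithmetic of the nodes, the Cantor set `K`.
-/

set_option autoImplicit false

namespace Pool.Agent.W74.TC

open Pool.Agent.W866.TC

lemma B_pos (l : ℕ) : 0 < B l := by
  induction l with
  | zero => simp [B]
  | succ l ih => rw [B]; exact Nat.mul_pos ih (by unfold b; positivity)

lemma B_posR (l : ℕ) : (0 : ℝ) < B l := by exact_mod_cast B_pos l

lemma B_eq (l : ℕ) : B l = 2 ^ nb l := by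
  induction l with
  | zero => simp [B, nb]
  | succ l ih => rw [B, nb, ih, b, ← pow_add]

lemma b_ge (l : ℕ) : 8 ≤ b l := by
  unfold b
  calc 8 = 2 ^ 3 := by norm_num
    _ ≤ 2 ^ (l + 3) := Nat.pow_le_pow_right (by norm_num) (by omega)

lemma B_succ (l : ℕ) : B (l + 1) = B l * b l := rfl

lemma B_dvd {l m : ℕ} (h : l ≤ m) : B l ∣ B m := by
  induction m, h using Nat.le_induction with
  | base => exact dvd_rfl
  | succ m _ ih => exact ih.mul_right _

lemma B_large (l : ℕ) : l < B l := by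
  induction l with
  | zero => simp [B]
  | succ l ih =>
    rw [B_succ]
    have := b_ge l
    nlinarith

/-- there is a fine level -/
lemma exists_level (ε : ℝ) (hε : 0 < ε) (j : ℕ) : ∃ L, j ≤ L ∧ 1 / (B L : ℝ) < ε := by
  obtain ⟨n, hn⟩ := exists_nat_gt (1 / ε)
  refine ⟨max n j, le_max_right _ _, ?_⟩
  have h1 : (n : ℝ) < B (max n j) := by
    have h2 := B_large (max n j)
    have h3 : n ≤ max n j := le_max_left _ _
    exact_mod_cast (lt_of_le_of_lt h3 h2)
  rw [div_lt_iff₀ (B_posR _)]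
  rw [div_lt_iff₀ hε] at hn
  nlinarith

/-- the closed interval of a node -/
def Iv (n : ℕ × ℕ) : Set ℝ := Set.Icc ((n.2 : ℝ) / B n.1) (((n.2 : ℝ) + 1) / B n.1)

lemma quo_mul {l m : ℕ} (h : l ≤ m) : B m / B l * B l = B m := Nat.div_mul_cancel (B_dvd h)

lemma quo_pos {l m : ℕ} (h : l ≤ m) : 0 < B m / B l :=
  Nat.div_pos (Nat.le_of_dvd (B_pos m) (B_dvd h)) (B_pos l)

lemma cut_bounds {l : ℕ} {m : ℕ × ℕ} (h : l ≤ m.1) :
    cut l m * (B m.1 / B l) ≤ m.2 ∧ m.2 + 1 ≤ (cut l m + 1) * (B m.1 / B l) := by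
  unfold cut
  constructor
  · exact Nat.div_mul_le_self _ _
  · have := Nat.lt_div_mul_add (a := m.2) (quo_pos h)
    rw [add_mul, one_mul]
    omega

lemma Iv_sub {l : ℕ} {m : ℕ × ℕ} (h : l ≤ m.1) : Iv m ⊆ Iv (l, cut l m) := by
  obtain ⟨h1, h2⟩ := cut_bounds h
  have hq : ((B m.1 / B l : ℕ) : ℝ) * B l = B m.1 := by exact_mod_cast quo_mul h
  have hq0 : (0 : ℝ) < ((B m.1 / B l : ℕ) : ℝ) := by exact_mod_cast quo_pos h
  have h1' : (cut l m : ℝ) * ((B m.1 / B l : ℕ) : ℝ) ≤ m.2 := by exact_mod_cast h1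
  have h2' : (m.2 : ℝ) + 1 ≤ ((cut l m : ℝ) + 1) * ((B m.1 / B l : ℕ) : ℝ) := by exact_mod_cast h2
  have hBl := B_posR l
  have hBm := B_posR m.1
  apply Set.Icc_subset_Icc
  · show (cut l m : ℝ) / B l ≤ _
    rw [div_le_div_iff₀ hBl hBm, ← hq]
    nlinarith
  · show _ ≤ ((cut l m : ℝ) + 1) / B l
    rw [div_le_div_iff₀ hBm hBl, ← hq]
    nlinarith

lemma Iv_uniq {l k k' : ℕ} {p : ℝ} (h : p ∈ Iv (l, k)) (h1 : (k' : ℝ) / B l < p)
    (h2 : p < ((k' : ℝ) + 1) / B l) : k = k' := by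
  have hB := B_posR l
  obtain ⟨g1, g2⟩ := h
  simp only at g1 g2
  rw [div_le_iff₀ hB] at g1
  rw [le_div_iff₀ hB] at g2
  rw [div_lt_iff₀ hB] at h1
  rw [lt_div_iff₀ hB] at h2
  have e1 : (k : ℝ) < k' + 1 := by linarith
  have e2 : (k' : ℝ) < k + 1 := by linarith
  have e1' : k < k' + 1 := by exact_mod_cast e1
  have e2' : k' < k + 1 := by exact_mod_cast e2
  omega

lemma Iv_dist {n : ℕ × ℕ} {p q : ℝ} (hp : p ∈ Iv n) (hq : q ∈ Iv n) : |p - q| ≤ 1 / B n.1 := by
  obtain ⟨h1, h2⟩ := hp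
  obtain ⟨h3, h4⟩ := hq
  rw [add_div] at h2 h4
  rw [abs_le]
  constructor <;> linarith

lemma cut_self (m : ℕ × ℕ) : cut m.1 m = m.2 := by
  unfold cut
  rw [Nat.div_self (B_pos _), Nat.div_one]

lemma cut_succ {l L k : ℕ} (h : l ≤ L) : cut l (L + 1, k) = cut l (L, k / b L) := by
  unfold cut
  simp only
  have : B (L + 1) / B l = b L * (B L / B l) := by
    rw [B_succ, mul_comm, Nat.mul_div_assoc _ (B_dvd h)]
  rw [this, Nat.div_div_eq_div_mul]

lemma Kn_cut {l L k : ℕ} (h : Kn L k) (hl : l ≤ L) : Kn l (cut l (L, k)) := by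
  induction L generalizing k with
  | zero =>
    obtain rfl : l = 0 := by omega
    have := cut_self (0, k)
    simp only at this
    rw [this]; exact h
  | succ L ih =>
    rcases Nat.lt_or_ge l (L + 1) with h1 | h1
    · rw [cut_succ (by omega)]
      exact ih h.1 (by omega)
    · obtain rfl : l = L + 1 := by omega
      have := cut_self (L + 1, k)
      simp only at this
      rw [this]; exact h

lemma Kn_lt {l k : ℕ} (h : Kn l k) : k < B l := by
  induction l generalizing k with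
  | zero => have : k = 0 := h; simp [this, B]
  | succ l ih =>
    have := ih h.1
    rw [B_succ]
    exact (Nat.div_lt_iff_lt_mul (by have := b_ge l; omega)).1 this

lemma Kn_child {l k c : ℕ} (h : Kn l k) (hc : c + 3 ≤ b l) : Kn (l + 1) (k * b l + c) := by
  have hb := b_ge l
  have h1 : (k * b l + c) / b l = k := by
    rw [mul_comm, Nat.mul_add_div (by omega), Nat.div_eq_of_lt (by omega), add_zero]
  have h2 : (k * b l + c) % b l = c := by
    rw [mul_comm, Nat.mul_add_mod, Nat.mod_eq_of_lt (by omega)]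
  exact ⟨by rw [h1]; exact h, by rw [h2]; exact hc⟩

/-- the Cantor set -/
def K : Set ℝ := {x | ∀ l, ∃ k, Kn l k ∧ x ∈ Iv (l, k)}

lemma left_ext {l k : ℕ} (h : Kn l k) (i : ℕ) :
    ∃ k', Kn (l + i) k' ∧ (k' : ℝ) / B (l + i) = (k : ℝ) / B l := by
  induction i with
  | zero => exact ⟨k, h, rfl⟩
  | succ i ih =>
    obtain ⟨k', h1, h2⟩ := ih
    refine ⟨k' * b (l + i) + 0, Kn_child h1 (le_trans (by norm_num : 0 + 3 ≤ 8) (b_ge (l + i))), ?_⟩
    rw [← h2]
    show ((k' * b (l + i) + 0 : ℕ) : ℝ) / B (l + i + 1) = _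
    rw [B_succ]
    have hb : (0 : ℝ) < b (l + i) := by exact_mod_cast (by have := b_ge (l + i); omega)
    have hB := B_posR (l + i)
    push_cast
    rw [add_zero, div_eq_div_iff (by positivity) (by positivity)]
    ring

/-- the left end point of a node of the Cantor set -/
lemma left_mem {l k : ℕ} (h : Kn l k) : (k : ℝ) / B l ∈ K := by
  have hself : (k : ℝ) / B l ∈ Iv (l, k) := by
    constructor
    · exact le_refl _
    · show (k : ℝ) / B l ≤ ((k : ℝ) + 1) / B l
      have := B_posR l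
      gcongr
      linarith
  intro l'
  rcases Nat.lt_or_ge l l' with h1 | h1
  · obtain ⟨i, rfl⟩ := Nat.exists_eq_add_of_lt h1
    obtain ⟨k', h2, h3⟩ := left_ext h (i + 1)
    refine ⟨k', h2, ?_⟩
    rw [← h3]
    constructor
    · exact le_refl _
    · show (k' : ℝ) / B (l + (i + 1)) ≤ ((k' : ℝ) + 1) / B (l + (i + 1))
      have := B_posR (l + (i + 1))
      gcongr
      linarith
  · exact ⟨cut l' (l, k), Kn_cut h h1, Iv_sub (m := (l, k)) h1 hself⟩

lemma K_sub : K ⊆ Set.Icc 0 1 := by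
  intro x hx
  obtain ⟨k, hk, hxk⟩ := hx 0
  have hk0 : k = 0 := hk
  rw [hk0] at hxk
  unfold Iv at hxk
  simpa [B] using hxk

lemma K_closed : IsClosed K := by
  have : K = ⋂ l, ⋃ k ∈ {k | Kn l k}, Iv (l, k) := by
    ext x
    simp only [Set.mem_iInter, Set.mem_iUnion, Set.mem_setOf_eq, exists_prop]
    exact Iff.rfl
  rw [this]
  apply isClosed_iInter
  intro l
  apply Set.Finite.isClosed_biUnion
  · exact (Set.finite_lt_nat (B l)).subset (fun k hk => Kn_lt hk)
  · intro k _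
    exact isClosed_Icc

/-- the middle of a node of the Cantor set, with a point of `K` in the interior -/
lemma child_bounds {l k c : ℕ} (hc : c + 1 ≤ b l) :
    (k : ℝ) / B l ≤ ((k * b l + c : ℕ) : ℝ) / B (l + 1) ∧
      (((k * b l + c : ℕ) : ℝ) + 1) / B (l + 1) ≤ ((k : ℝ) + 1) / B l := by
  have hb : (0 : ℝ) < b l := by exact_mod_cast (by have := b_ge l; omega)
  have hB := B_posR l
  have hc' : (c : ℝ) + 1 ≤ b l := by exact_mod_cast hc
  rw [B_succ]
  push_cast
  constructor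
  · rw [div_le_div_iff₀ hB (by positivity)]
    have : (0 : ℝ) ≤ c := Nat.cast_nonneg c
    nlinarith
  · rw [div_le_div_iff₀ (by positivity) hB]
    nlinarith

lemma K_good : Pool.Agent.H812R3.CantorChar.Good K := by
  refine ⟨isCompact_Icc.of_isClosed_subset K_closed K_sub, ?_, ?_, ?_⟩
  · exact ⟨_, left_mem (l := 0) (k := 0) rfl⟩
  · intro z hz ε hε
    obtain ⟨L, _, hL⟩ := exists_level ε hε 0
    obtain ⟨k, hk, hzk⟩ := hz L
    have hb := b_ge L
    have m0 := left_mem (Kn_child hk (c := 0) (by omega))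
    have m2 := left_mem (Kn_child hk (c := 2) (by omega))
    have c0 := child_bounds (l := L) (k := k) (c := 0) (by omega)
    have c2 := child_bounds (l := L) (k := k) (c := 2) (by omega)
    have hBp := B_posR (L + 1)
    have i0 : ((k * b L + 0 : ℕ) : ℝ) / B (L + 1) ∈ Iv (L, k) := by
      refine ⟨c0.1, le_trans ?_ c0.2⟩
      gcongr
      linarith
    have i2 : ((k * b L + 2 : ℕ) : ℝ) / B (L + 1) ∈ Iv (L, k) := by
      refine ⟨c2.1, le_trans ?_ c2.2⟩
      gcongr
      linarith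
    have hne : ((k * b L + 0 : ℕ) : ℝ) / B (L + 1) ≠ ((k * b L + 2 : ℕ) : ℝ) / B (L + 1) := by
      intro h
      rw [div_left_inj' hBp.ne'] at h
      have : k * b L + 0 = k * b L + 2 := by exact_mod_cast h
      omega
    by_cases h : ((k * b L + 0 : ℕ) : ℝ) / B (L + 1) = z
    · refine ⟨_, m2, ?_, lt_of_le_of_lt (Iv_dist i2 hzk) hL⟩
      rw [← h]; exact hne.symm
    · exact ⟨_, m0, h, lt_of_le_of_lt (Iv_dist i0 hzk) hL⟩
  · intro u v huv
    by_cases hc : (u + v) / 2 ∈ K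
    swap
    · exact ⟨(u + v) / 2, by linarith, by linarith, hc⟩
    obtain ⟨L, _, hL⟩ := exists_level ((v - u) / 2) (by linarith) 0
    obtain ⟨k, hk, hck⟩ := hc L
    have hb := b_ge L
    obtain ⟨e1, e2⟩ := child_bounds (l := L) (k := k) (c := b L - 2) (by omega)
    have hBp := B_posR (L + 1)
    set k' := k * b L + (b L - 2) with hk'
    set z : ℝ := ((k' : ℝ) + 1 / 2) / B (L + 1) with hz
    have z1 : (k' : ℝ) / B (L + 1) < z := by
      rw [hz]
      gcongr
      linarith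
    have z2 : z < ((k' : ℝ) + 1) / B (L + 1) := by
      rw [hz]
      gcongr
      linarith
    have hzI : z ∈ Iv (L, k) := ⟨e1.trans z1.le, z2.le.trans e2⟩
    have hd := lt_of_le_of_lt (Iv_dist hzI hck) hL
    rw [abs_lt] at hd
    refine ⟨z, by linarith [hd.1], by linarith [hd.2], ?_⟩
    intro hzK
    obtain ⟨k₂, hk₂, hzk₂⟩ := hzK (L + 1)
    have := Iv_uniq hzk₂ z1 z2
    rw [this] at hk₂
    have h3 := hk₂.2
    rw [hk', mul_comm, Nat.mul_add_mod, Nat.mod_eq_of_lt (by omega)] at h3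
    omega

end Pool.Agent.W74.TC
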