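import Pool.Agent.W866.TC.Stm
import Pool.Agent.W74.TC.Kset

/-!
TC-ZFC (helper74): from the combinatorial principle to the real line.
-/

set_option autoImplicit false

namespace Pool.Agent.W74.TC

open Pool.Agent.W866.TC

/-! ### binary sequences -/

open Classical in
/-- the number formed by the first `L` bits -/
noncomputable def val (x : ℕ → Prop) : ℕ → ℕ
  | 0 => 0
  | L + 1 => 2 * val x L + (if x L then 1 else 0)

lemma val_succ_cases (x : ℕ → Prop) (L : ℕ) :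
    (x L ∧ val x (L + 1) = 2 * val x L + 1) ∨ (¬ x L ∧ val x (L + 1) = 2 * val x L) := by
  classical
  by_cases h : x L
  · left; exact ⟨h, by rw [val]; simp [h]⟩
  · right; exact ⟨h, by rw [val]; simp [h]⟩

lemma val_lt (x : ℕ → Prop) (L : ℕ) : val x L < 2 ^ L := by
  induction L with
  | zero => simp [val]
  | succ L ih =>
    rw [pow_succ]
    rcases val_succ_cases x L with ⟨_, h⟩ | ⟨_, h⟩ <;> rw [h] <;> omega

open Classical in
lemma testBit_val (x : ℕ → Prop) (L : ℕ) : ∀ i, i < L →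
    (val x L).testBit (L - 1 - i) = decide (x i) := by
  induction L with
  | zero => intro i hi; omega
  | succ L ih =>
    intro i hi
    rcases Nat.lt_or_ge i L with h | h
    · have e : L + 1 - 1 - i = (L - 1 - i) + 1 := by omega
      rw [e, Nat.testBit_succ, ← ih i h]
      congr 1
      rcases val_succ_cases x L with ⟨_, h⟩ | ⟨_, h⟩ <;> rw [h] <;> omega
    · obtain rfl : i = L := by omega
      have e : i + 1 - 1 - i = 0 := by omega
      rw [e, Nat.testBit_zero]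
      rcases val_succ_cases x i with ⟨h1, h⟩ | ⟨h1, h⟩
      · rw [h]; simp [h1]
      · rw [h]; simp [h1]

lemma Seg_iff (n : ℕ × ℕ) (x : ℕ → Prop) : Seg n x ↔ n.2 % 2 ^ nb n.1 = val x (nb n.1) := by
  classical
  constructor
  · intro h
    apply Nat.eq_of_testBit_eq
    intro j
    rw [Nat.testBit_mod_two_pow]
    rcases Nat.lt_or_ge j (nb n.1) with hj | hj
    · have h1 := h (nb n.1 - 1 - j) (by omega)
      have h2 := testBit_val x (nb n.1) (nb n.1 - 1 - j) (by omega)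
      have e : nb n.1 - 1 - (nb n.1 - 1 - j) = j := by omega
      rw [e] at h1 h2
      rw [h2]
      by_cases hb : n.2.testBit j
      · rw [if_pos hb] at h1
        simp [hj, hb, h1]
      · rw [if_neg hb] at h1
        simp [hb, h1]
    · rw [Nat.testBit_lt_two_pow ((val_lt x (nb n.1)).trans_le
        (Nat.pow_le_pow_right (by norm_num) hj))]
      simp [hj]
  · intro h i hi
    have h2 := testBit_val x (nb n.1) i hi
    rw [← h, Nat.testBit_mod_two_pow] at h2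
    have h3 : nb n.1 - 1 - i < nb n.1 := by omega
    simp only [h3, decide_true, Bool.true_and] at h2
    by_cases hx : x i
    · rw [if_pos]
      · exact hx
      · rw [h2]; simp [hx]
    · rw [if_neg]
      · exact hx
      · rw [h2]; simp [hx]

/-- the binary digits of `v` -/
def dig (v : ℝ) : ℕ → Prop := fun i => Odd ⌊v * 2 ^ (i + 1)⌋₊

lemma val_dig (v : ℝ) (h0 : 0 ≤ v) (h1 : v < 1) (L : ℕ) : val (dig v) L = ⌊v * 2 ^ L⌋₊ := by
  induction L with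
  | zero =>
    symm
    simp only [pow_zero, mul_one, val]
    exact Nat.floor_eq_zero.2 h1
  | succ L ih =>
    have h2 : ⌊v * 2 ^ (L + 1)⌋₊ / 2 = ⌊v * 2 ^ L⌋₊ := by
      have := Nat.floor_div_natCast (v * 2 ^ (L + 1)) 2
      rw [← this]
      congr 1
      push_cast
      rw [pow_succ]
      ring
    have h3 := Nat.div_add_mod ⌊v * 2 ^ (L + 1)⌋₊ 2
    rcases val_succ_cases (dig v) L with ⟨h, e⟩ | ⟨h, e⟩
    · have h' : Odd ⌊v * 2 ^ (L + 1)⌋₊ := h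
      rw [Nat.odd_iff] at h'
      rw [e, ih]
      omega
    · have h' : ¬ Odd ⌊v * 2 ^ (L + 1)⌋₊ := h
      rw [Nat.odd_iff] at h'
      rw [e, ih]
      omega

/-- the real number of a binary sequence -/
lemma exists_tau (t : ℕ → Prop) :
    ∃ τ : ℝ, ∀ L, (val t L : ℝ) / 2 ^ L ≤ τ ∧ τ ≤ ((val t L : ℝ) + 1) / 2 ^ L := by
  have hf : Monotone (fun L => (val t L : ℝ) / 2 ^ L) := by
    apply monotone_nat_of_le_succ
    intro L
    have h : 2 * (val t L : ℝ) ≤ val t (L + 1) := by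
      rcases val_succ_cases t L with ⟨_, e⟩ | ⟨_, e⟩ <;> rw [e] <;> push_cast <;> linarith
    show (val t L : ℝ) / 2 ^ L ≤ (val t (L + 1) : ℝ) / 2 ^ (L + 1)
    rw [div_le_div_iff₀ (by positivity) (by positivity), pow_succ]
    have : (0 : ℝ) < 2 ^ L := by positivity
    nlinarith
  have hg : Antitone (fun L => ((val t L : ℝ) + 1) / 2 ^ L) := by
    apply antitone_nat_of_succ_le
    intro L
    have h : (val t (L + 1) : ℝ) + 1 ≤ 2 * ((val t L : ℝ) + 1) := by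
      rcases val_succ_cases t L with ⟨_, e⟩ | ⟨_, e⟩ <;> rw [e] <;> push_cast <;> linarith
    show ((val t (L + 1) : ℝ) + 1) / 2 ^ (L + 1) ≤ ((val t L : ℝ) + 1) / 2 ^ L
    rw [div_le_div_iff₀ (by positivity) (by positivity), pow_succ]
    have : (0 : ℝ) < 2 ^ L := by positivity
    nlinarith
  have hfg : (fun L => (val t L : ℝ) / 2 ^ L) ≤ (fun L => ((val t L : ℝ) + 1) / 2 ^ L) := by
    intro L
    show (val t L : ℝ) / 2 ^ L ≤ ((val t L : ℝ) + 1) / 2 ^ L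
    gcongr
    linarith
  have := Monotone.ciSup_mem_iInter_Icc_of_antitone hf hg hfg
  rw [Set.mem_iInter] at this
  exact ⟨_, this⟩

/-! ### the sum -/

lemma mod_in {l N : ℕ} (hN : N < 2 * B l) {S : ℝ} (h1 : (N : ℝ) / B l ≤ S)
    (h2 : S ≤ ((N : ℝ) + 1) / B l) : S ∈ Iv (l, N % B l) ∨ S - 1 ∈ Iv (l, N % B l) := by
  have hB := B_posR l
  rcases Nat.lt_or_ge N (B l) with h | h
  · left
    rw [Nat.mod_eq_of_lt h]
    exact ⟨h1, h2⟩
  · right
    have e : N % B l = N - B l := by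
      rw [Nat.mod_eq_sub_mod h, Nat.mod_eq_of_lt (by omega)]
    rw [e]
    have e2 : ((N - B l : ℕ) : ℝ) = N - B l := by
      rw [Nat.cast_sub h]
    constructor
    · show ((N - B l : ℕ) : ℝ) / B l ≤ S - 1
      rw [e2, sub_div, div_self hB.ne']
      linarith
    · show S - 1 ≤ (((N - B l : ℕ) : ℝ) + 1) / B l
      rw [e2]
      have : ((N : ℝ) - B l + 1) / B l = ((N : ℝ) + 1) / B l - 1 := by
        field_simp
        ring
      rw [this]
      linarith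

lemma sum_in {v τ : ℝ} {t : ℕ → Prop} (h0 : 0 ≤ v) (h1 : v < 1)
    (hτ : ∀ L, (val t L : ℝ) / 2 ^ L ≤ τ ∧ τ ≤ ((val t L : ℝ) + 1) / 2 ^ L)
    {d m u : ℕ × ℕ} (hS : SumIn d m u) (hm : Seg m (dig v)) (hu : Seg u t) :
    v + τ ∈ Iv d ∨ v + τ - 1 ∈ Iv d := by
  obtain ⟨hmu, hd0, hd1⟩ := hS
  rw [Seg_iff] at hm hu
  rw [← hmu] at hu
  set l := m.1 with hl
  have hBr := B_posR l
  have hB2 : (B l : ℝ) = 2 ^ nb l := by rw [B_eq]; push_cast; rfl
  rw [← B_eq] at hm hu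
  set a := val (dig v) (nb l) with ha
  set c := val t (nb l) with hc
  have haB : a < B l := by rw [B_eq]; exact val_lt _ _
  have hcB : c < B l := by rw [B_eq]; exact val_lt _ _
  have hav : (a : ℝ) / B l ≤ v ∧ v < ((a : ℝ) + 1) / B l := by
    have e : a = ⌊v * B l⌋₊ := by rw [ha, val_dig v h0 h1, hB2]
    have f1 := Nat.floor_le (show 0 ≤ v * B l by positivity)
    have f2 := Nat.lt_floor_add_one (v * B l)
    rw [← e] at f1 f2
    rw [div_le_iff₀ hBr, lt_div_iff₀ hBr]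
    exact ⟨f1, f2⟩
  have hcv := hτ (nb l)
  rw [← hc, ← hB2] at hcv
  have sub : ∀ e : ℕ, NExt d (l, e) → Iv (l, e) ⊆ Iv d := by
    intro e he
    have := Iv_sub (l := d.1) (m := (l, e)) he.1
    rw [he.2] at this
    exact this
  have e0 : (m.2 + u.2) % B l = (a + c) % B l := by
    rw [Nat.add_mod, hm, hu]
  have e1 : (m.2 + u.2 + 1) % B l = (a + c + 1) % B l := by
    rw [Nat.add_mod, e0, ← Nat.add_mod]
  rw [e0] at hd0
  rw [e1] at hd1
  have s1 : ((a + c : ℕ) : ℝ) / B l ≤ v + τ := by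
    push_cast
    rw [add_div]
    linarith [hav.1, hcv.1]
  have s2 : v + τ ≤ (((a + c + 1 : ℕ) : ℝ) + 1) / B l := by
    push_cast
    have : ((a : ℝ) + c + 1 + 1) / B l = ((a : ℝ) + 1) / B l + ((c : ℝ) + 1) / B l := by ring
    rw [this]
    linarith [hav.2, hcv.2]
  rcases le_total (v + τ) ((((a + c : ℕ) : ℝ) + 1) / B l) with h | h
  · rcases mod_in (by omega) s1 h with g | g
    · left; exact sub _ hd0 g
    · right; exact sub _ hd0 g
  · have h' : ((a + c + 1 : ℕ) : ℝ) / B l ≤ v + τ := by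
      have e : ((a + c + 1 : ℕ) : ℝ) = ((a + c : ℕ) : ℝ) + 1 := by push_cast; ring
      rw [e]; exact h
    rcases mod_in (by omega) h' s2 with g | g
    · left; exact sub _ hd1 g
    · right; exact sub _ hd1 g

lemma knode_bd {d : ℕ × ℕ} (hd : KNode d) (h1 : 1 ≤ d.1) {w : ℝ} (hw : w ∈ Iv d) :
    0 ≤ w ∧ w ≤ 3 / 4 := by
  have h2 : Kn 1 (cut 1 d) := Kn_cut (L := d.1) (k := d.2) hd h1
  have h3 := Iv_sub h1 hw
  have hb : b 0 = 8 := by norm_num [b]
  have hB : B 1 = 8 := by simp [B, b]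
  have h4 : cut 1 d / b 0 = 0 := h2.1
  have h5 : cut 1 d % b 0 + 3 ≤ b 0 := h2.2
  rw [hb] at h4 h5
  have h6 : cut 1 d ≤ 5 := by omega
  have h7 : (cut 1 d : ℝ) ≤ 5 := by exact_mod_cast h6
  obtain ⟨g1, g2⟩ := h3
  simp only [hB] at g1 g2
  push_cast at g1 g2
  constructor
  · refine le_trans ?_ g1
    positivity
  · refine le_trans g2 ?_
    linarith

/-! ### the hypothesis of `Star` -/

/-- the open set of the reals whose translate is in the open set of `D j` -/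
def U (D : ℕ → ℕ × ℕ → Prop) (j : ℕ) (z : ℤ) (n : ℕ) : Set ℝ :=
  {y | ∃ m : ℕ × ℕ, (D j m ∧ IsNode m) ∧ ∃ w : ℤ,
    y + z / 2 ^ n - w ∈ Set.Ioo ((m.2 : ℝ) / B m.1) (((m.2 : ℝ) + 1) / B m.1)}

lemma U_open (D : ℕ → ℕ × ℕ → Prop) (j : ℕ) (z : ℤ) (n : ℕ) : IsOpen (U D j z n) := by
  have : U D j z n = ⋃ (m : ℕ × ℕ) (_ : D j m ∧ IsNode m) (w : ℤ),
      (fun y : ℝ => y + z / 2 ^ n - w) ⁻¹'
        Set.Ioo ((m.2 : ℝ) / B m.1) (((m.2 : ℝ) + 1) / B m.1) := by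
    ext y
    simp only [U, Set.mem_iUnion, exists_prop]
    exact Iff.rfl
  rw [this]
  refine isOpen_iUnion fun m => isOpen_iUnion fun _ => isOpen_iUnion fun w => ?_
  exact isOpen_Ioo.preimage (by fun_prop)

lemma U_dense {D : ℕ → ℕ × ℕ → Prop} (hD : NDense D) (j : ℕ) (z : ℤ) (n : ℕ) :
    Dense (U D j z n) := by
  rw [Metric.dense_iff]
  intro r ε hε
  obtain ⟨L, _, hL⟩ := exists_level ε hε 0
  set s : ℝ := r + z / 2 ^ n with hs
  set f : ℝ := s - ⌊s⌋ with hf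
  have hf0 : 0 ≤ f := by rw [hf]; linarith [Int.floor_le s]
  have hf1 : f < 1 := by rw [hf]; linarith [Int.lt_floor_add_one s]
  have hBr := B_posR L
  set k := ⌊f * B L⌋₊ with hk
  have f1 := Nat.floor_le (show 0 ≤ f * B L by positivity)
  have f2 := Nat.lt_floor_add_one (f * B L)
  rw [← hk] at f1 f2
  have hkB : k < B L := by
    have : (k : ℝ) < B L := by nlinarith
    exact_mod_cast this
  have hfI : f ∈ Iv (L, k) := by
    constructor
    · show (k : ℝ) / B L ≤ f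
      rw [div_le_iff₀ hBr]; exact f1
    · show f ≤ ((k : ℝ) + 1) / B L
      rw [le_div_iff₀ hBr]; exact f2.le
  obtain ⟨m, ⟨hm1, hm2⟩, hm3⟩ := hD j (L, k) hkB
  have hBm := B_posR m.1
  set c : ℝ := ((m.2 : ℝ) + 1 / 2) / B m.1 with hc
  have c1 : (m.2 : ℝ) / B m.1 < c := by
    rw [hc]; gcongr; linarith
  have c2 : c < ((m.2 : ℝ) + 1) / B m.1 := by
    rw [hc]; gcongr; linarith
  have hcI : c ∈ Iv (L, k) := by
    have := Iv_sub (l := L) (m := m) hm1.1 ⟨c1.le, c2.le⟩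
    rw [hm1.2] at this
    exact this
  have hd := lt_of_le_of_lt (Iv_dist hcI hfI) hL
  refine ⟨c + ⌊s⌋ - z / 2 ^ n, ?_, ?_⟩
  · rw [Metric.mem_ball, Real.dist_eq]
    have : c + ⌊s⌋ - z / 2 ^ n - r = c - f := by rw [hf, hs]; ring
    rw [this]; exact hd
  · refine ⟨m, ⟨hm3, hm2⟩, ⌊s⌋, ?_⟩
    have : c + ⌊s⌋ - z / 2 ^ n + z / 2 ^ n - ⌊s⌋ = c := by ring
    rw [this]
    exact ⟨c1, c2⟩

lemma star_hyp {X : Set ℝ} (hX : ¬ IsMeagre X) {D : ℕ → ℕ × ℕ → Prop} (hD : NDense D)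
    (n : ℕ × ℕ) (hn : IsNode n) :
    ∃ y ∈ X, ∃ (z : ℤ) (i : ℕ), 0 ≤ y + z / 2 ^ i ∧ y + z / 2 ^ i < 1 ∧
      Seg n (dig (y + z / 2 ^ i)) ∧ InAll D (dig (y + z / 2 ^ i)) := by
  have hG : (⋂ (j : ℕ) (z : ℤ) (i : ℕ), U D j z i) ∈ residual ℝ := by
    refine countable_iInter_mem.2 fun j => countable_iInter_mem.2 fun z =>
      countable_iInter_mem.2 fun i => ?_
    exact residual_of_dense_open (U_open D j z i) (U_dense hD j z i)
  obtain ⟨y, hyX, hyG⟩ : ∃ y ∈ X, y ∈ ⋂ (j : ℕ) (z : ℤ) (i : ℕ), U D j z i := by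
    by_contra hcon
    push Not at hcon
    apply hX
    show Xᶜ ∈ residual ℝ
    exact Filter.mem_of_superset hG (fun y hy hyX => hcon y hyX hy)
  simp only [Set.mem_iInter] at hyG
  have hBr := B_posR n.1
  have hB2 : (B n.1 : ℝ) = 2 ^ nb n.1 := by rw [B_eq]; push_cast; rfl
  obtain ⟨z, hz⟩ : ∃ z : ℤ, z = n.2 - ⌊y * B n.1⌋ := ⟨_, rfl⟩
  obtain ⟨v, hv⟩ : ∃ v : ℝ, v = y + z / 2 ^ nb n.1 := ⟨_, rfl⟩
  have hvB : v * B n.1 = n.2 + (y * B n.1 - ⌊y * B n.1⌋) := by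
    rw [hv, ← hB2, hz]
    push_cast
    field_simp
    ring
  have g1 : (n.2 : ℝ) ≤ v * B n.1 := by rw [hvB]; linarith [Int.floor_le (y * B n.1)]
  have g2 : v * B n.1 < n.2 + 1 := by rw [hvB]; linarith [Int.lt_floor_add_one (y * B n.1)]
  have hn2 : (n.2 : ℝ) + 1 ≤ B n.1 := by exact_mod_cast hn
  have hv0 : 0 ≤ v := by
    by_contra h
    push Not at h
    have := mul_neg_of_neg_of_pos h hBr
    have h3 : (0 : ℝ) ≤ n.2 := Nat.cast_nonneg _
    linarith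
  have hv1 : v < 1 := by
    by_contra h
    push Not at h
    nlinarith
  -- floor description
  have hfl : ∀ m : ℕ × ℕ, IsNode m → (m.2 : ℝ) ≤ v * B m.1 → v * B m.1 < m.2 + 1 →
      Seg m (dig v) := by
    intro m hm h1 h2
    rw [Seg_iff, val_dig v hv0 hv1]
    have hB2' : (B m.1 : ℝ) = 2 ^ nb m.1 := by rw [B_eq]; push_cast; rfl
    rw [← hB2', ← B_eq, Nat.mod_eq_of_lt hm]
    symm
    rw [Nat.floor_eq_iff (by have := B_posR m.1; positivity)]
    exact ⟨h1, h2⟩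
  refine ⟨y, hyX, z, nb n.1, ?_⟩
  rw [← hv]
  refine ⟨hv0, hv1, hfl n hn g1 g2, ?_⟩
  intro j
  obtain ⟨m, ⟨hm1, hm2⟩, w, hw1, hw2⟩ := hyG j z (nb n.1)
  rw [← hv] at hw1 hw2
  have hBm := B_posR m.1
  have hm2' : (m.2 : ℝ) + 1 ≤ B m.1 := by exact_mod_cast hm2
  have k1 : (0 : ℝ) ≤ (m.2 : ℝ) / B m.1 := by positivity
  have k2 : ((m.2 : ℝ) + 1) / B m.1 ≤ 1 := by rw [div_le_one hBm]; exact hm2'
  have w1 : (w : ℝ) < 1 := by linarith
  have w2 : (-1 : ℝ) < w := by linarith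
  have w1' : w < 1 := by exact_mod_cast w1
  have w2' : -1 < w := by exact_mod_cast w2
  have w0 : w = 0 := by omega
  rw [w0] at hw1 hw2
  rw [Int.cast_zero, sub_zero] at hw1 hw2
  rw [div_lt_iff₀ hBm] at hw1
  rw [lt_div_iff₀ hBm] at hw2
  exact ⟨m, hm2, hm1, hfl m hm2 hw1.le hw2⟩

/-! ### dense sets of nodes of the Cantor set -/

lemma K_dense (G : ℕ → Set K) (hGo : ∀ j, IsOpen (G j)) (hGd : ∀ j, Dense (G j)) :
    KDense (fun j d => j + 1 ≤ d.1 ∧ ∀ p : K, (p : ℝ) ∈ Iv d → p ∈ G j) := by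
  intro j n hn
  have hb := b_ge n.1
  have hb' : (8 : ℝ) ≤ b n.1 := by exact_mod_cast hb
  have hBr := B_posR n.1
  have hp0 := left_mem (Kn_child (l := n.1) (k := n.2) (c := 1) hn (by omega))
  obtain ⟨p0, hp0d⟩ : ∃ p0 : ℝ, p0 = ((n.2 * b n.1 + 1 : ℕ) : ℝ) / B (n.1 + 1) := ⟨_, rfl⟩
  rw [← hp0d] at hp0
  have q1 : (n.2 : ℝ) / B n.1 < p0 := by
    rw [hp0d, B_succ, div_lt_div_iff₀ hBr (by push_cast; positivity)]
    push_cast
    nlinarith
  have q2 : p0 < ((n.2 : ℝ) + 1) / B n.1 := by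
    rw [hp0d, B_succ, div_lt_div_iff₀ (by push_cast; positivity) hBr]
    push_cast
    nlinarith
  obtain ⟨p, hpO, hpG⟩ := (hGd j).inter_open_nonempty
    {p : K | (n.2 : ℝ) / B n.1 < p ∧ (p : ℝ) < ((n.2 : ℝ) + 1) / B n.1}
    ((isOpen_lt continuous_const continuous_subtype_val).inter
      (isOpen_lt continuous_subtype_val continuous_const)) ⟨⟨p0, hp0⟩, q1, q2⟩
  obtain ⟨ε, hε, hball⟩ := Metric.isOpen_iff.1 (hGo j) p hpG
  obtain ⟨L, hLj, hL⟩ := exists_level ε hε (max (j + 1) n.1)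
  obtain ⟨k, hk, hpk⟩ := p.2 L
  have hnL : n.1 ≤ L := (le_max_right _ _).trans hLj
  have hjL : j + 1 ≤ L := (le_max_left _ _).trans hLj
  refine ⟨(L, k), ⟨⟨hnL, ?_⟩, hk⟩, hjL, ?_⟩
  · exact Iv_uniq (Iv_sub (m := (L, k)) hnL hpk) hpO.1 hpO.2
  · intro p' hp'
    apply hball
    rw [Metric.mem_ball, Subtype.dist_eq, Real.dist_eq]
    exact lt_of_le_of_lt (Iv_dist hp' hpk) hL

/-- TC-ZFC -/
theorem zfc : S_ZFC := by
  intro hStar
  refine ⟨K, K_good.homeo, ?_⟩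
  intro X hX
  obtain ⟨t, ht⟩ := hStar (fun x => ∃ y ∈ X, ∃ (z : ℤ) (i : ℕ), 0 ≤ y + z / 2 ^ i ∧
    y + z / 2 ^ i < 1 ∧ x = dig (y + z / 2 ^ i)) (by
      intro D hD n hn
      obtain ⟨y, hy, z, i, h0, h1, h2, h3⟩ := star_hyp hX hD n hn
      exact ⟨dig (y + z / 2 ^ i), ⟨y, hy, z, i, h0, h1, rfl⟩, h2, h3⟩)
  obtain ⟨τ, hτ⟩ := exists_tau t
  by_contra hcon
  push Not at hcon
  have hres : (⋂ (z : ℤ) (i : ℕ),
      {y : K | (y : ℝ) ∈ (fun x => x + ((z : ℝ) / 2 ^ i + τ)) '' X}ᶜ) ∈ residual K := by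
    refine countable_iInter_mem.2 fun z => countable_iInter_mem.2 fun i => ?_
    exact hcon _
  obtain ⟨S, hSo, hSd, hSc, hSs⟩ := mem_residual_iff.1 hres
  obtain ⟨G, hG⟩ := (hSc.insert Set.univ).exists_eq_range ⟨Set.univ, Set.mem_insert _ _⟩
  have hGmem : ∀ j, G j = Set.univ ∨ G j ∈ S := by
    intro j
    have : G j ∈ insert Set.univ S := by rw [hG]; exact ⟨j, rfl⟩
    exact this
  have hGo : ∀ j, IsOpen (G j) := by
    intro j
    rcases hGmem j with h | h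
    · rw [h]; exact isOpen_univ
    · exact hSo _ h
  have hGd : ∀ j, Dense (G j) := by
    intro j
    rcases hGmem j with h | h
    · rw [h]; exact dense_univ
    · exact hSd _ h
  obtain ⟨x, ⟨y, hy, z, i, h0, h1, hx⟩, hsum⟩ := ht _ (K_dense G hGo hGd)
  obtain ⟨v, hv⟩ : ∃ v : ℝ, v = y + z / 2 ^ i := ⟨_, rfl⟩
  rw [← hv] at h0 h1 hx
  -- the integer
  obtain ⟨e, he⟩ : ∃ e : ℤ, ∀ j, ∃ d, KNode d ∧ (j + 1 ≤ d.1 ∧ ∀ p : K, (p : ℝ) ∈ Iv d →
      p ∈ G j) ∧ v + τ - e ∈ Iv d := by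
    by_cases h34 : v + τ ≤ 3 / 4
    · refine ⟨0, fun j => ?_⟩
      obtain ⟨d, hd, hDd, m, u, hS, hm, hu⟩ := hsum j
      rw [hx] at hm
      refine ⟨d, hd, hDd, ?_⟩
      rcases sum_in h0 h1 hτ hS hm hu with g | g
      · rw [Int.cast_zero, sub_zero]; exact g
      · have := knode_bd hd (by omega) g
        exfalso
        linarith [this.1]
    · refine ⟨1, fun j => ?_⟩
      obtain ⟨d, hd, hDd, m, u, hS, hm, hu⟩ := hsum j
      rw [hx] at hm
      refine ⟨d, hd, hDd, ?_⟩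
      rcases sum_in h0 h1 hτ hS hm hu with g | g
      · have := knode_bd hd (by omega) g
        exact absurd this.2 h34
      · rw [Int.cast_one]; exact g
  have hwK : v + τ - e ∈ K := by
    intro l
    obtain ⟨d, hd, ⟨hl, _⟩, hw⟩ := he l
    exact ⟨cut l d, Kn_cut (L := d.1) (k := d.2) hd (by omega), Iv_sub (by omega) hw⟩
  have hwG : (⟨v + τ - e, hwK⟩ : K) ∈ ⋂₀ S := by
    intro s hs
    have : s ∈ insert Set.univ S := Set.mem_insert_of_mem _ hs
    rw [hG] at this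
    obtain ⟨j, rfl⟩ := this
    obtain ⟨d, hd, ⟨_, hp⟩, hw⟩ := he j
    exact hp _ hw
  have hfin := hSs hwG
  simp only [Set.mem_iInter] at hfin
  apply hfin (z - e * 2 ^ i) i
  refine ⟨y, hy, ?_⟩
  show y + (((z - e * 2 ^ i : ℤ) : ℝ) / 2 ^ i + τ) = v + τ - e
  rw [hv]
  push_cast
  field_simp
  ring

end Pool.Agent.W74.TC
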